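import Pool.Agent.MP_6a4325_al.H62.Base2

/-!
Abelian groups of integral automorphisms of a torsion free abelian group that is finitely
generated up to `p`-powers.
-/

set_option autoImplicit false

namespace Pool.Agent.MP_6a4325_al.H71

open Pool.Agent.MP_6a4325_al.H62 Polynomial NumberField TensorProduct

section Prep

theorem aeval_semiconj {R V W : Type} [CommRing R] [AddCommGroup V] [AddCommGroup W] [Module R V]
    [Module R W] (g : V →ₗ[R] W) (f : Module.End R V) (f' : Module.End R W)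
    (h : ∀ v, g (f v) = f' (g v)) (q : ℤ[X]) (v : V) : g (aeval f q v) = aeval f' q (g v) := by
  induction q using Polynomial.induction_on' with
  | add a b ha hb => simp only [map_add, LinearMap.add_apply, ha, hb]
  | monomial n a =>
    have hn : ∀ (n : ℕ) (v : V), g ((f ^ n) v) = (f' ^ n) (g v) := fun n => by
      induction n with
      | zero => intro v; rfl
      | succ n ih => intro v; rw [pow_succ, pow_succ, Module.End.mul_apply, Module.End.mul_apply,
          ih, h]
    simp only [aeval_monomial, Module.End.mul_apply, eq_intCast, Module.End.intCast_apply,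
      map_zsmul, hn]

theorem fg_le {V : Type} [AddCommGroup V] {N N' : AddSubgroup V} (h : N.FG) (hle : N' ≤ N) :
    N'.FG := by
  have h1 : (AddSubgroup.toIntSubmodule N).FG := by
    rwa [Submodule.fg_iff_addSubgroup_fg, AddSubgroup.toIntSubmodule_toAddSubgroup]
  have h2 : (AddSubgroup.toIntSubmodule N').FG := h1.of_le fun x hx => hle hx
  rwa [Submodule.fg_iff_addSubgroup_fg, AddSubgroup.toIntSubmodule_toAddSubgroup] at h2

theorem fg_comap {U V : Type} [AddCommGroup U] [AddCommGroup V] (f : U →+ V)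
    (hf : Function.Injective f) {N : AddSubgroup V} (h : N.FG) : (N.comap f).FG := by
  have h1 : ((N.comap f).map f).FG := fg_le h (AddSubgroup.map_comap_le f N)
  have h2 : ((AddSubgroup.toIntSubmodule (N.comap f)).map f.toIntLinearMap).FG := by
    rw [Submodule.fg_iff_addSubgroup_fg]
    exact h1
  have h3 := Submodule.fg_of_fg_map_injective _ (show Function.Injective f.toIntLinearMap from hf) h2
  rwa [Submodule.fg_iff_addSubgroup_fg, AddSubgroup.toIntSubmodule_toAddSubgroup] at h3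

theorem fg_map' {U V : Type} [AddCommGroup U] [AddCommGroup V] (f : U →+ V)
    {N : AddSubgroup U} (h : N.FG) : (N.map f).FG := by
  obtain ⟨S, hS, hfin⟩ := (AddSubgroup.fg_iff N).1 h
  exact (AddSubgroup.fg_iff _).2 ⟨f '' S, by rw [← hS, AddMonoidHom.map_closure], hfin.image _⟩

/-- `Λ` is finitely generated up to `p`-powers -/
def PG (p : ℕ) {V : Type} [AddCommGroup V] (Λ : AddSubgroup V) : Prop :=
  ∃ N : AddSubgroup V, N.FG ∧ N ≤ Λ ∧ ∀ x ∈ Λ, ∃ j : ℕ, p ^ j • x ∈ N

theorem PG.comap {p : ℕ} {U V : Type} [AddCommGroup U] [AddCommGroup V] (f : U →+ V)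
    (hf : Function.Injective f) {Λ : AddSubgroup V} (h : PG p Λ) : PG p (Λ.comap f) := by
  obtain ⟨N, h1, h2, h3⟩ := h
  refine ⟨N.comap f, fg_comap f hf h1, AddSubgroup.comap_mono h2, fun x hx => ?_⟩
  obtain ⟨j, hj⟩ := h3 _ hx
  exact ⟨j, by rwa [AddSubgroup.mem_comap, map_nsmul]⟩

theorem PG.map {p : ℕ} {U V : Type} [AddCommGroup U] [AddCommGroup V] (f : U →+ V)
    {Λ : AddSubgroup U} (h : PG p Λ) : PG p (Λ.map f) := by
  obtain ⟨N, h1, h2, h3⟩ := h
  refine ⟨N.map f, fg_map' f h1, AddSubgroup.map_mono h2, ?_⟩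
  rintro _ ⟨x, hx, rfl⟩
  obtain ⟨j, hj⟩ := h3 _ hx
  exact ⟨j, _, hj, map_nsmul f _ _⟩

theorem nsmul_cancel {V : Type} [AddCommGroup V] [Module ℚ V] {m : ℕ} (hm : m ≠ 0) {v : V}
    (h : m • v = 0) : v = 0 := by
  rw [← Nat.cast_smul_eq_nsmul ℚ] at h
  exact (smul_eq_zero.1 h).resolve_left (Nat.cast_ne_zero.2 hm)

variable {p : ℕ} [hp : Fact p.Prime]

theorem ser_lattice (api : SerApi p) {V : Type} [AddCommGroup V] [Module ℚ V]
    {Λ : AddSubgroup V} (h : PG p Λ) : Ser p ⊥ (AddSubgroup.toSubgroup Λ) := by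
  obtain ⟨N, h1, h2, h3⟩ := h
  obtain ⟨T, hT⟩ := (AddSubgroup.fg_iff_mul_fg N).1 h1
  refine api.ab _ _ _ T bot_le (fun x _ y _ => ?_) (fun x _ hx => ?_) (fun t ht => ?_)
    fun x hx => ?_
  · rw [Subgroup.mem_bot, mul_comm x y, mul_inv_cancel_right, mul_inv_cancel]
  · exact nsmul_cancel (V := V) hp.out.ne_zero hx
  · have : t ∈ AddSubgroup.toSubgroup N := hT ▸ Subgroup.subset_closure ht
    exact h2 this
  · obtain ⟨j, hj⟩ := h3 _ hx
    refine ⟨j, Subgroup.mem_sup_left ?_⟩
    rw [hT]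
    exact hj

omit hp in
theorem ser_field (api : SerApi p) {Y K : Type} [Group Y] [Field K] [NumberField K] (u : Y →* K)
    (h : ∀ y, IsIntegral ℤ (u y)) : Ser p u.ker ⊤ := by
  let u1 : Y →* 𝓞 K :=
    { toFun := fun y => ⟨u y, h y⟩
      map_one' := Subtype.ext u.map_one
      map_mul' := fun a b => Subtype.ext (u.map_mul a b) }
  have hfg : Group.FG (𝓞 K)ˣ := Group.fg_iff_monoid_fg.2 inferInstance
  obtain ⟨T, hT⟩ := hfg.out
  refine api.hom _ _ _ _ (u1.toHomUnits.comp (⊤ : Subgroup Y).subtype) ⊤ le_top (fun x => ?_)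
    (fun _ => trivial) (api.fgab _ _ _ T bot_le (fun x _ y _ => ?_) (by rw [hT]; simp))
  · rw [← Units.val_eq_one, MonoidHom.mem_ker]
    exact Subtype.ext_iff
  · rw [Subgroup.mem_bot, mul_comm x y, mul_inv_cancel_right, mul_inv_cancel]

omit hp in
theorem ser_domain (api : SerApi p) {Y K : Type} [Group Y] [CommRing K] [IsDomain K] [Algebra ℚ K]
    [FiniteDimensional ℚ K] (u : Y →* K) (h : ∀ y, IsIntegral ℤ (u y)) : Ser p u.ker ⊤ := by
  let := fieldOfFiniteDimensional ℚ K
  have : NumberField K := NumberField.of_module_finite ℚ K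
  exact ser_field api u h

omit hp in
theorem ser_simple (api : SerApi p) {Y V : Type} [Group Y] [AddCommGroup V] [Module ℚ V]
    [FiniteDimensional ℚ V] (s : Y →* Module.End ℚ V) (hc : ∀ a b, s a * s b = s b * s a)
    (hi : ∀ y, IsIntegral ℤ (s y))
    (hs : ∀ U : Submodule ℚ V, (∀ y, ∀ u ∈ U, s y u ∈ U) → U = ⊥ ∨ U = ⊤) : Ser p s.ker ⊤ := by
  rcases subsingleton_or_nontrivial V with hV | hV
  · have : s.ker = ⊤ := eq_top_iff.2 fun y _ => Subsingleton.elim _ _
    rw [this]
    exact Relation.ReflTransGen.refl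
  let E := Algebra.adjoin ℚ (Set.range s)
  have hE : IsMulCommutative E := Algebra.isMulCommutative_adjoin ℚ (by
    rintro _ ⟨a, rfl⟩ _ ⟨b, rfl⟩
    exact hc a b)
  let : CommRing E := { (inferInstance : Ring E) with mul_comm := hE.is_comm.comm }
  let u : Y →* E := s.codRestrict E fun y => Algebra.subset_adjoin ⟨y, rfl⟩
  have : NoZeroDivisors E := ⟨fun {a b} hab => by
    rcases hs (LinearMap.ker a.1) (fun y v hv => by
      have h1 : a.1 * s y = s y * a.1 := congrArg Subtype.val (mul_comm a (u y))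
      rw [LinearMap.mem_ker] at hv ⊢
      rw [← Module.End.mul_apply, h1, Module.End.mul_apply, hv, map_zero]) with h | h
    · refine Or.inr (Subtype.ext (LinearMap.ext fun v => ?_))
      have h1 : a.1 (b.1 v) = 0 := LinearMap.congr_fun (congrArg Subtype.val hab) v
      have h2 : b.1 v ∈ LinearMap.ker a.1 := h1
      rw [h] at h2
      exact h2
    · exact Or.inl (Subtype.ext (LinearMap.ker_eq_top.1 h))⟩
  have : IsDomain E := NoZeroDivisors.to_isDomain E
  have h1 := ser_domain api u fun y =>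
    (isIntegral_algHom_iff (E.val.restrictScalars ℤ) Subtype.val_injective).1 (hi y)
  have h2 : u.ker = s.ker := by
    ext y
    rw [MonoidHom.mem_ker, MonoidHom.mem_ker]
    exact Subtype.ext_iff
  rwa [h2] at h1

theorem isIntegral_of_inj {R V W : Type} [CommRing R] [AddCommGroup V] [AddCommGroup W]
    [Module R V] [Module R W] (g : V →ₗ[R] W) (hg : Function.Injective g) (f : Module.End R V)
    (f' : Module.End R W) (h : ∀ v, g (f v) = f' (g v)) (hi : IsIntegral ℤ f') :
    IsIntegral ℤ f := by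
  obtain ⟨q, hq, e⟩ := hi
  refine ⟨q, hq, LinearMap.ext fun v => hg ?_⟩
  rw [← aeval_def] at e ⊢
  rw [aeval_semiconj g f f' h, e]
  simp

theorem isIntegral_of_surj {R V W : Type} [CommRing R] [AddCommGroup V] [AddCommGroup W]
    [Module R V] [Module R W] (g : V →ₗ[R] W) (hg : Function.Surjective g) (f : Module.End R V)
    (f' : Module.End R W) (h : ∀ v, g (f v) = f' (g v)) (hi : IsIntegral ℤ f) :
    IsIntegral ℤ f' := by
  obtain ⟨q, hq, e⟩ := hi
  refine ⟨q, hq, LinearMap.ext fun w => ?_⟩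
  obtain ⟨v, rfl⟩ := hg w
  rw [← aeval_def] at e ⊢
  rw [← aeval_semiconj g f f' h, e]
  simp

/-- the unipotent part -/
theorem ser_unip (api : SerApi p) {Y V : Type} [Group Y] [AddCommGroup V] [Module ℚ V]
    {Λ : AddSubgroup V} (hΛ : PG p Λ) (hsp : ∀ v, ∃ m : ℕ, m ≠ 0 ∧ m • v ∈ Λ)
    (s : Y →* Module.End ℚ V) (hs : ∀ y, ∀ x ∈ Λ, s y x ∈ Λ) (U : Submodule ℚ V)
    (K : Subgroup Y) (hK : s.ker ≤ K) (h1 : ∀ y ∈ K, ∀ u ∈ U, s y u = u)
    (h2 : ∀ y ∈ K, ∀ v, s y v - v ∈ U) : Ser p s.ker K := by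
  have hser := ser_lattice api hΛ
  obtain ⟨N, ⟨T, hT⟩, hN, hp'⟩ := hΛ
  let f : V → K →* Multiplicative V := fun t =>
    { toFun := fun y => Multiplicative.ofAdd (s y t - t)
      map_one' := by simp
      map_mul' := fun a b => by
        rw [← ofAdd_add]
        congr 1
        have := h1 a a.2 _ (h2 b b.2 t)
        rw [map_sub] at this
        rw [Subgroup.coe_mul, map_mul, Module.End.mul_apply, sub_eq_iff_eq_add.1 this]
        abel }
  have key := api.iInf Y V T (fun t => (f t).ker.map K.subtype) K fun t ht =>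
    api.hom _ _ _ _ (f t) _ (Subgroup.map_subtype_le _)
      (fun x => ⟨fun hx => ⟨x, hx, rfl⟩, fun ⟨y, hy, e⟩ => (Subtype.ext e : y = x) ▸ hy⟩)
      (fun x => by
        have ht' : t ∈ Λ := hN (hT ▸ AddSubgroup.subset_closure ht)
        exact Λ.sub_mem (hs x t ht') ht') hser
  have e : K ⊓ ⨅ t ∈ T, (f t).ker.map K.subtype = s.ker := by
    refine le_antisymm (fun y hy => ?_) fun y hy => Subgroup.mem_inf.2 ⟨hK hy, ?_⟩
    · have hy2 := (Subgroup.mem_inf.1 hy).2
      simp only [Subgroup.mem_iInf] at hy2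
      have h3 : ∀ x ∈ N, s y x = x := fun x hx => by
        rw [← hT] at hx
        induction hx using AddSubgroup.closure_induction with
        | mem t ht =>
          obtain ⟨z, hz, rfl⟩ := hy2 t ht
          exact sub_eq_zero.1 hz
        | zero => exact map_zero _
        | add a b _ _ ha hb => rw [map_add, ha, hb]
        | neg a _ ha => rw [map_neg, ha]
      refine LinearMap.ext fun v => ?_
      obtain ⟨m, hm, hv⟩ := hsp v
      obtain ⟨j, hj⟩ := hp' _ hv
      have h4 := h3 _ hj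
      rw [map_nsmul, map_nsmul, ← sub_eq_zero, ← nsmul_sub, ← nsmul_sub] at h4
      exact sub_eq_zero.1 (nsmul_cancel hm (nsmul_cancel (pow_ne_zero j hp.out.ne_zero) h4))
    · simp only [Subgroup.mem_iInf]
      refine fun t _ => ⟨⟨y, hK hy⟩, ?_, rfl⟩
      change s y t - t = 0
      rw [MonoidHom.mem_ker.1 hy]
      simp
  rwa [e] at key

theorem ser_main (api : SerApi p) {Y : Type} [Group Y] (n : ℕ) : ∀ (V : Type) [AddCommGroup V]
    [Module ℚ V] [FiniteDimensional ℚ V], Module.finrank ℚ V = n → ∀ Λ : AddSubgroup V, PG p Λ →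
    (∀ v : V, ∃ m : ℕ, m ≠ 0 ∧ m • v ∈ Λ) → ∀ s : Y →* Module.End ℚ V,
    (∀ a b, s a * s b = s b * s a) → (∀ y, IsIntegral ℤ (s y)) → (∀ y, ∀ x ∈ Λ, s y x ∈ Λ) →
    Ser p s.ker ⊤ := by
  induction n using Nat.strong_induction_on with
  | _ n ih =>
    intro V _ _ _ hn Λ hΛ hsp s hc hi hs
    by_cases h : ∀ U : Submodule ℚ V, (∀ y, ∀ u ∈ U, s y u ∈ U) → U = ⊥ ∨ U = ⊤
    · exact ser_simple api s hc hi h
    push Not at h
    obtain ⟨U, hU, hb, ht⟩ := h
    let s1 : Y →* Module.End ℚ U :=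
      { toFun := fun y => (s y).restrict (hU y)
        map_one' := LinearMap.ext fun u => Subtype.ext (by simp)
        map_mul' := fun a b => LinearMap.ext fun u => Subtype.ext (by simp) }
    let s2 : Y →* Module.End ℚ (V ⧸ U) :=
      { toFun := fun y => U.mapQ U (s y) (hU y)
        map_one' := U.linearMap_qext (LinearMap.ext fun v => by simp)
        map_mul' := fun a b => U.linearMap_qext (LinearMap.ext fun v => by simp) }
    have e1 : ∀ y (u : U), U.subtype (s1 y u) = s y (U.subtype u) := fun _ _ => rfl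
    have e2 : ∀ y v, U.mkQ (s y v) = s2 y (U.mkQ v) := fun _ _ => rfl
    have hrk := U.finrank_quotient_add_finrank
    have hpos : Module.finrank ℚ U ≠ 0 := fun e => hb (Submodule.finrank_eq_zero.1 e)
    have hlt : Module.finrank ℚ U < n := hn ▸ Submodule.finrank_lt ht
    have k1 := ih _ hlt U rfl _ (hΛ.comap U.subtype.toAddMonoidHom Subtype.val_injective)
      (fun u => hsp u) s1
      (fun a b => LinearMap.ext fun u => Subtype.ext (LinearMap.congr_fun (hc a b) u))
      (fun y => isIntegral_of_inj U.subtype Subtype.val_injective _ _ (e1 y) (hi y))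
      (fun y x hx => hs y x hx)
    have k2 := ih (Module.finrank ℚ (V ⧸ U)) (by omega) (V ⧸ U) rfl _
      (hΛ.map U.mkQ.toAddMonoidHom)
      (fun w => by
        obtain ⟨v, rfl⟩ := U.mkQ_surjective w
        obtain ⟨m, hm, hv⟩ := hsp v
        exact ⟨m, hm, _, hv, map_nsmul _ _ _⟩) s2
      (fun a b => U.linearMap_qext (LinearMap.ext fun v =>
        congrArg U.mkQ (LinearMap.congr_fun (hc a b) v)))
      (fun y => isIntegral_of_surj U.mkQ U.mkQ_surjective _ _ (e2 y) (hi y))
      (by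
        rintro y _ ⟨x, hx, rfl⟩
        exact ⟨_, hs y x hx, rfl⟩)
    have k3 := api.inf _ _ _ s2.ker k1
    rw [top_inf_eq] at k3
    refine Relation.ReflTransGen.trans (ser_unip api hΛ hsp s hs U (s1.ker ⊓ s2.ker)
      (fun y hy => ⟨?_, ?_⟩) (fun y hy u hu => ?_) fun y hy v => ?_)
      (Relation.ReflTransGen.trans k3 k2)
    · exact LinearMap.ext fun u => Subtype.ext (LinearMap.congr_fun (MonoidHom.mem_ker.1 hy) u)
    · exact U.linearMap_qext (LinearMap.ext fun v =>
        congrArg U.mkQ (LinearMap.congr_fun (MonoidHom.mem_ker.1 hy) v))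
    · exact congrArg Subtype.val (LinearMap.congr_fun (MonoidHom.mem_ker.1 hy.1) ⟨u, hu⟩)
    · exact (Submodule.Quotient.eq U).1
        (LinearMap.congr_fun (MonoidHom.mem_ker.1 hy.2) (U.mkQ v))

/-- an endomorphism with finitely generated orbit modules is integral -/
theorem isIntegral_of_orbit {M : Type} [AddCommGroup M]
    (htf : ∀ (m : ℕ) (x : M), m ≠ 0 → m • x = 0 → x = 0) (T : Finset M)
    (hT : ∀ x : M, ∃ m : ℕ, m ≠ 0 ∧ m • x ∈ AddSubgroup.closure (↑T : Set M))
    (f : Module.End ℤ M)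
    (hf : ∀ x, ∃ N : Submodule ℤ M, N.FG ∧ x ∈ N ∧ ∀ y ∈ N, f y ∈ N) : IsIntegral ℤ f := by
  choose N h1 h2 h3 using hf
  let P : Submodule ℤ M := T.sup N
  have hP : P.FG := Submodule.fg_finset_sup T N fun t _ => h1 t
  have hinv : ∀ y ∈ P, f y ∈ P := by
    have : P ≤ P.comap f := Finset.sup_le fun t ht y hy => (Finset.le_sup ht : N t ≤ P) (h3 t y hy)
    exact fun y hy => this hy
  have : Module.Finite ℤ P := Module.Finite.iff_fg.2 hP
  obtain ⟨q, hq, e⟩ := LinearMap.exists_monic_and_aeval_eq_zero ℤ (f.restrict hinv)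
  refine ⟨q, hq, LinearMap.ext fun x => ?_⟩
  obtain ⟨m, hm, hx⟩ := hT x
  have h4 : m • x ∈ P := (AddSubgroup.closure_le (K := P.toAddSubgroup)).2
    (fun t ht => (Finset.le_sup ht : N t ≤ P) (h2 t)) hx
  have h5 := aeval_semiconj P.subtype (f.restrict hinv) f (fun _ => rfl) q ⟨_, h4⟩
  rw [e] at h5
  refine htf m _ hm ?_
  rw [← aeval_def, ← map_nsmul]
  exact h5.symm

end Prep

theorem dir : SSer → SDir := by
  intro hser p hp A L _ _ φ hφ htf ⟨T, hT⟩ horb Y hY
  have api := hser p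
  let M := Additive A
  let ι : M →ₗ[ℤ] ℚ ⊗[ℤ] M := TensorProduct.mk ℤ ℚ M 1
  have hloc : IsLocalizedModule (nonZeroDivisors ℤ) ι :=
    IsLocalization.tensorProduct_isLocalizedModule (nonZeroDivisors ℤ) ℚ
  have htf' : ∀ (m : ℕ) (x : M), m ≠ 0 → m • x = 0 → x = 0 := fun m x hm hx =>
    htf (Additive.toMul x) trivial (isOfFinOrder_iff_pow_eq_one.2 ⟨m, Nat.pos_of_ne_zero hm, hx⟩)
  have hι : Function.Injective ι := (injective_iff_map_eq_zero ι).2 fun x hx => by
    obtain ⟨c, hc⟩ := (IsLocalizedModule.eq_zero_iff (nonZeroDivisors ℤ) ι).1 hx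
    refine htf' (c : ℤ).natAbs x (Int.natAbs_ne_zero.2 (nonZeroDivisors.coe_ne_zero c)) ?_
    have h1 : (c : ℤ) • x = 0 := hc
    rcases Int.natAbs_eq (c : ℤ) with h | h
    · rw [h, natCast_zsmul] at h1
      exact h1
    · rw [h, neg_smul, natCast_zsmul, neg_eq_zero] at h1
      exact h1
  let s0 : L →* Module.End ℤ M :=
    { toFun := fun g => (MonoidHom.toAdditive (φ g).toMonoidHom).toIntLinearMap
      map_one' := LinearMap.ext fun x => by rw [map_one]; rfl
      map_mul' := fun a b => LinearMap.ext fun x => by rw [map_mul]; rfl }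
  let T' : Finset M := T
  have hT' : ∀ x : M, ∃ j : ℕ, p ^ j • x ∈ AddSubgroup.closure (↑T' : Set M) := fun x => by
    obtain ⟨j, hj⟩ := hT (Additive.toMul x)
    refine ⟨j, ?_⟩
    have h1 : p ^ j • x ∈ Subgroup.toAddSubgroup (Subgroup.closure (↑T : Set A)) := hj
    rwa [Subgroup.toAddSubgroup_closure] at h1
  have hint : ∀ g, IsIntegral ℤ (s0 g) := fun g =>
    isIntegral_of_orbit htf' T' (fun x => (hT' x).elim fun j hj =>
      ⟨_, pow_ne_zero j hp.out.ne_zero, hj⟩) _ fun x => by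
      refine ⟨AddSubgroup.toIntSubmodule (Subgroup.toAddSubgroup (Subgroup.closure
        (Set.range fun n : ℤ => φ (g ^ n) (Additive.toMul x)))), ?_, ?_, fun y hy => ?_⟩
      · rw [Submodule.fg_iff_addSubgroup_fg, AddSubgroup.toIntSubmodule_toAddSubgroup]
        exact (Subgroup.fg_iff_add_fg _).1 (horb g _)
      · exact Subgroup.subset_closure (G := A) ⟨0, by simp; rfl⟩
      · have h1 : Subgroup.closure (Set.range fun n : ℤ => φ (g ^ n) (Additive.toMul x)) ≤
            (Subgroup.closure (Set.range fun n : ℤ => φ (g ^ n) (Additive.toMul x))).comap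
              (φ g).toMonoidHom := (Subgroup.closure_le _).2 (by
          rintro _ ⟨n, rfl⟩
          refine Subgroup.subset_closure ⟨1 + n, ?_⟩
          beta_reduce
          rw [zpow_one_add, map_mul]
          rfl)
        exact h1 hy
  let β := Module.End.baseChangeHom ℤ ℚ M
  let s : Y →* Module.End ℚ (ℚ ⊗[ℤ] M) := (β : _ →* _).comp (s0.comp Y.subtype)
  have es : ∀ (y : Y) (x : M), s y (ι x) = ι (s0 y x) := fun _ _ => rfl
  let Λ : AddSubgroup (ℚ ⊗[ℤ] M) := (⊤ : AddSubgroup M).map ι.toAddMonoidHom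
  have hΛ : PG p Λ := PG.map _ ⟨_, ⟨T', rfl⟩, le_top, fun x _ => hT' x⟩
  have hsp : ∀ v, ∃ m : ℕ, m ≠ 0 ∧ m • v ∈ Λ := fun v => by
    obtain ⟨⟨x, c⟩, hc⟩ := IsLocalizedModule.surj (nonZeroDivisors ℤ) ι v
    refine ⟨(c : ℤ).natAbs, Int.natAbs_ne_zero.2 (nonZeroDivisors.coe_ne_zero c), ?_⟩
    have h1 : (c : ℤ) • v ∈ Λ := ⟨x, trivial, hc.symm⟩
    rcases Int.natAbs_eq (c : ℤ) with h | h
    · rwa [h, natCast_zsmul] at h1
    · rwa [h, neg_smul, natCast_zsmul, neg_mem_iff] at h1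
  have hfd : FiniteDimensional ℚ (ℚ ⊗[ℤ] M) := by
    obtain ⟨N, ⟨S, hS⟩, -, h3⟩ := hΛ
    refine ⟨S, eq_top_iff.2 fun v _ => ?_⟩
    obtain ⟨m, hm, hv⟩ := hsp v
    obtain ⟨j, hj⟩ := h3 _ hv
    rw [← hS] at hj
    have h4 : p ^ j • m • v ∈ Submodule.span ℚ (↑S : Set (ℚ ⊗[ℤ] M)) :=
      (AddSubgroup.closure_le (K := (Submodule.span ℚ _).toAddSubgroup)).2 Submodule.subset_span hj
    rw [← mul_nsmul', ← Nat.cast_smul_eq_nsmul ℚ] at h4
    exact (Submodule.smul_mem_iff _ (Nat.cast_ne_zero.2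
      (mul_ne_zero (pow_ne_zero j hp.out.ne_zero) hm))).1 h4
  have key := ser_main api _ _ rfl Λ hΛ hsp s
    (fun a b => by rw [← map_mul, ← map_mul, (Subtype.ext (hY a a.2 b b.2) : a * b = b * a)])
    (fun y => (hint y).map β) (by
      rintro y _ ⟨x, -, rfl⟩
      exact ⟨_, trivial, (es y x).symm⟩)
  have hk : s.ker = ⊥ := (Subgroup.eq_bot_iff_forall _).2 fun y hy => Subtype.ext (hφ (by
    rw [OneMemClass.coe_one, map_one]
    refine MulEquiv.ext fun a => ?_
    have h1 := es y (Additive.ofMul a)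
    rw [MonoidHom.mem_ker.1 hy] at h1
    exact (hι h1).symm))
  have k2 := api.map _ _ Y.subtype _ _ key
  rwa [hk, Subgroup.map_bot, ← MonoidHom.range_eq_map, Subgroup.range_subtype] at k2

end Pool.Agent.MP_6a4325_al.H71
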