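import Pool.Agent.MP_6a4325_al.H84.Spec3

/-!
Row BIGR of plan 3: the subgroup `K` of a fixing pair is big in its normal closure, and the
dimension bound passes to quotients.
-/

set_option autoImplicit false

namespace Pool.Agent.MP_6a4325_al.H71

open Pool.Agent.MP_6a4325_al.H62 Pool.Agent.MP_6a4325_al.H84

/-- finite combinations that kill the translates of `ψ` kill the vector -/
theorem kill_sum {k G E U ι : Type} [Field k] [Group G] [AddCommGroup E] [Module k E]
    [AddCommGroup U] [Module k U] {ψ : G → E} {σ : Representation k G U} {u : U}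
    (h : ∀ x : MonoidAlgebra k G,
      (∀ g, (x.coeff.sum fun a c => c • ψ (g * a)) = 0) → σ.asAlgebraHom x u = 0)
    (s : Finset ι) (a : ι → G) (c : ι → k) (hs : ∀ g, ∑ i ∈ s, c i • ψ (g * a i) = 0) :
    ∑ i ∈ s, c i • σ (a i) u = 0 := by
  have h1 := h (∑ i ∈ s, MonoidAlgebra.single (a i) (c i)) fun g => by
    have e : ∀ y : G →₀ k, (y.sum fun a c => c • ψ (g * a)) =
        Finsupp.linearCombination k (fun a => ψ (g * a)) y := fun _ => rfl
    rw [e, MonoidAlgebra.coeff_sum, map_sum]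
    simpa [MonoidAlgebra.coeff_single] using hs g
  rw [map_sum, LinearMap.sum_apply] at h1
  simpa [Representation.asAlgebraHom_single] using h1

/-- an irreducible representation with a vector fixed by `Y` and not by `Y₁` -/
theorem gap_rep (hf : SFun) (k : Type) [Field k] {P : Type} [Group P] {Y Y₁ : Subgroup P}
    (hY : Y ≤ Y₁) (h1 : Y.relIndex Y₁ ≠ 1) (hm : ((Y.relIndex Y₁ : ℕ) : k) ≠ 0) :
    ∃ (U : Type) (_ : AddCommGroup U) (_ : Module k U) (σ : Representation k P U) (u : U),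
      Irr σ ∧ u ≠ 0 ∧ (∀ y ∈ Y, σ y u = u) ∧ ¬ ∀ y ∈ Y₁, σ y u = u := by
  classical
  set m := Y.relIndex Y₁ with hmd
  have hm0 : m ≠ 0 := fun e => hm (by rw [e, Nat.cast_zero])
  let ψ : P → k := fun g => (if g ∈ Y then (m : k) else 0) - if g ∈ Y₁ then 1 else 0
  obtain ⟨y₀, hy₁, hy₀⟩ : ∃ y ∈ Y₁, y ∉ Y := by
    by_contra hc
    push Not at hc
    exact h1 (Subgroup.relIndex_eq_one.2 hc)
  obtain ⟨U, i1, i2, σ, u, hσ, hu, hk⟩ := hf k P k ψ ⟨y₀, by simp [ψ, hy₁, hy₀]⟩
  refine ⟨U, i1, i2, σ, u, hσ, hu, fun y hy => ?_, fun hfix => ?_⟩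
  · have h2 := kill_sum hk (Finset.univ : Finset (Fin 2)) ![y, 1] ![1, -1] fun g => by
      simp [ψ, Fin.sum_univ_two, Y.mul_mem_cancel_right hy, Y₁.mul_mem_cancel_right (hY hy)]
    simpa [Fin.sum_univ_two, add_neg_eq_zero] using h2
  · have : Finite (Y₁ ⧸ Y.subgroupOf Y₁) := Nat.finite_of_card_ne_zero hm0
    let := Fintype.ofFinite (Y₁ ⧸ Y.subgroupOf Y₁)
    have hc : Fintype.card (Y₁ ⧸ Y.subgroupOf Y₁) = m := Nat.card_eq_fintype_card.symm
    have h2 := kill_sum hk (Finset.univ : Finset (Y₁ ⧸ Y.subgroupOf Y₁))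
      (fun q => (q.out : P)) (fun _ => 1) fun g => by
        by_cases hg : g ∈ Y₁
        · have e1 : ∀ q : Y₁ ⧸ Y.subgroupOf Y₁, g * (q.out : P) ∈ Y₁ :=
            fun q => Y₁.mul_mem hg q.out.2
          have e2 : ∀ q : Y₁ ⧸ Y.subgroupOf Y₁, g * (q.out : P) ∈ Y ↔
              ((⟨g, hg⟩⁻¹ : Y₁) : Y₁ ⧸ Y.subgroupOf Y₁) = q := fun q => by
            conv_rhs => rw [← QuotientGroup.out_eq' q, QuotientGroup.eq, inv_inv]
            rfl
          simp [ψ, e1, e2, Finset.sum_sub_distrib, hc]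
        · have e1 : ∀ q : Y₁ ⧸ Y.subgroupOf Y₁, g * (q.out : P) ∉ Y₁ :=
            fun q e => hg ((Y₁.mul_mem_cancel_right q.out.2).1 e)
          have e2 : ∀ q : Y₁ ⧸ Y.subgroupOf Y₁, g * (q.out : P) ∉ Y := fun q e => e1 q (hY e)
          simp [ψ, e1, e2]
    have h3 : ∀ q : Y₁ ⧸ Y.subgroupOf Y₁, σ (q.out : P) u = u := fun q => hfix _ q.out.2
    simp only [h3, one_smul, Finset.sum_const, Finset.card_univ, hc] at h2
    rw [← Nat.cast_smul_eq_nsmul k] at h2
    exact hu ((smul_eq_zero.1 h2).resolve_left hm)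

/-- the local statement: `H` has finite index in `H` joined with the normal closure of `K` -/
theorem rel_local (hv : VsApi) (hf : SFun) (hg : SGap) (p : ℕ) [Fact p.Prime] {P : Type}
    [Group P] (H K : Subgroup P) (hP : NVS P) (ht : Ft (Kp p) H K) :
    H.relIndex (Subgroup.normalClosure (K : Set P)) ≠ 0 := by
  intro h0
  set R := Subgroup.normalClosure (K : Set P)
  have h1 : H.relIndex (H ⊔ R) = 0 := Subgroup.relIndex_eq_zero_of_le_right le_sup_right h0
  obtain ⟨Y, Y₁, hHY, hY, hn1, hnp⟩ := hg p (H ⊔ R : Subgroup P) (H.subgroupOf (H ⊔ R))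
    (hv.nInj _ _ (H ⊔ R).subtype (Subgroup.subtype_injective _) hP) h1
  have e : (Y.map (H ⊔ R).subtype).relIndex (Y₁.map (H ⊔ R).subtype) = Y.relIndex Y₁ :=
    Subgroup.relIndex_map_map_of_injective _ _ (Subgroup.subtype_injective _)
  obtain ⟨U, _, _, σ, u, hσ, hu, hfix, hno⟩ := gap_rep hf (Kp p) (Subgroup.map_mono hY)
    (e ▸ hn1) (by rw [e]; exact fun h => hnp ((CharP.cast_eq_zero_iff (Kp p) p _).1 h))
  have hH : ∀ x ∈ H, σ x u = u := fun x hx =>
    hfix x ⟨⟨x, Subgroup.mem_sup_left hx⟩, hHY hx, rfl⟩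
  have hR : R ≤ σ.asGroupHom.ker := Subgroup.normalClosure_le_normal fun x hx =>
    Units.ext (ht U σ hσ u hu hH x hx)
  let S : Subgroup P :=
    { carrier := {x | σ x u = u}
      mul_mem' := fun {a b} ha hb => by
        show σ (a * b) u = u
        rw [rep_mul, hb, ha]
      one_mem' := by
        show σ 1 u = u
        rw [map_one, Module.End.one_apply]
      inv_mem' := fun {a} ha => by
        show σ a⁻¹ u = u
        conv_lhs => rw [← ha]
        exact rep_inv σ a u }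
  have hS : H ⊔ R ≤ S := sup_le hH fun x hx => by
    have h2 : σ x = 1 := congrArg Units.val (hR hx)
    show σ x u = u
    rw [h2, Module.End.one_apply]
  exact hno fun y hy => hS (Subgroup.map_subtype_le _ hy)

/-- the normal closure of `K` inside `J` -/
def nc {G : Type} [Group G] (K J : Subgroup G) : Subgroup G :=
  (Subgroup.normalClosure (K.subgroupOf J : Set J)).map J.subtype

theorem nc_mono {G : Type} [Group G] (K : Subgroup G) {J J' : Subgroup G} (h : J ≤ J') :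
    nc K J ≤ nc K J' := by
  rintro _ ⟨x, hx, rfl⟩
  have h1 : Subgroup.normalClosure (K.subgroupOf J : Set J) ≤
      (Subgroup.normalClosure (K.subgroupOf J' : Set J')).comap (Subgroup.inclusion h) :=
    Subgroup.normalClosure_le_normal fun y hy => Subgroup.subset_normalClosure hy
  exact ⟨_, h1 hx, rfl⟩

theorem exists_nc {G : Type} [Group G] {H K : Subgroup G} (hH : H.FG) (hK : K ≤ H) {x : G}
    (hx : x ∈ Subgroup.normalClosure (K : Set G)) : ∃ J : Subgroup G, J.FG ∧ x ∈ nc K J := by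
  let M : Subgroup G :=
    { carrier := {x | ∃ J : Subgroup G, J.FG ∧ x ∈ nc K J}
      mul_mem' := fun ⟨J, hJ, ha⟩ ⟨J', hJ', hb⟩ => ⟨J ⊔ J', hJ.sup hJ',
        Subgroup.mul_mem _ (nc_mono K le_sup_left ha) (nc_mono K le_sup_right hb)⟩
      one_mem' := ⟨H, hH, Subgroup.one_mem _⟩
      inv_mem' := fun ⟨J, hJ, ha⟩ => ⟨J, hJ, Subgroup.inv_mem _ ha⟩ }
  have : M.Normal := ⟨fun a ⟨J, hJ, ha⟩ g => by
    have hg : (Subgroup.closure {g}).FG := ⟨{g}, by rw [Finset.coe_singleton]⟩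
    obtain ⟨b, hb, rfl⟩ := nc_mono K (le_sup_left : J ≤ J ⊔ Subgroup.closure {g}) ha
    exact ⟨_, hJ.sup hg, _, Subgroup.normalClosure_normal.conj_mem b hb
      ⟨g, Subgroup.mem_sup_right (Subgroup.subset_closure rfl)⟩, rfl⟩⟩
  have h1 : Subgroup.normalClosure (K : Set G) ≤ M := Subgroup.normalClosure_le_normal
    fun y hy => ⟨H, hH, ⟨y, hK hy⟩, Subgroup.subset_normalClosure hy, rfl⟩
  exact h1 hx

theorem exists_nc_fin {G : Type} [Group G] {H K : Subgroup G} (hH : H.FG) (hK : K ≤ H)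
    (T : Finset G) (hT : ∀ x ∈ T, x ∈ Subgroup.normalClosure (K : Set G)) :
    ∃ J : Subgroup G, J.FG ∧ H ≤ J ∧ ∀ x ∈ T, x ∈ nc K J := by
  classical
  induction T using Finset.induction_on with
  | empty => exact ⟨H, hH, le_rfl, by simp⟩
  | insert a T _ ih =>
    obtain ⟨J, hJ, hHJ, hx⟩ := ih fun x hx => hT x (Finset.mem_insert_of_mem hx)
    obtain ⟨J', hJ', ha⟩ := exists_nc hH hK (hT a (Finset.mem_insert_self a T))
    refine ⟨J ⊔ J', hJ.sup hJ', hHJ.trans le_sup_left, fun x hx' => ?_⟩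
    rcases Finset.mem_insert.1 hx' with rfl | hx'
    · exact nc_mono K le_sup_right ha
    · exact nc_mono K le_sup_left (hx x hx')

theorem fg_map {G Q : Type} [Group G] [Group Q] {P : Subgroup G} (h : P.FG) (f : G →* Q) :
    (P.map f).FG := by
  obtain ⟨S, hS, hfin⟩ := (Subgroup.fg_iff P).1 h
  exact (Subgroup.fg_iff _).2 ⟨f '' S, by rw [← hS, MonoidHom.map_closure], hfin.image _⟩

theorem bigR : VsApi → SFun → SGap → SBigR := by
  intro hv hf hg p _ G _ H K hG hH hK hi ht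
  set R := Subgroup.normalClosure (K : Set G)
  have hKR : K ≤ R := Subgroup.le_normalClosure
  refine ⟨?_, fun L hL _ => ?_⟩
  · have h1 : ((K.subgroupOf H).map H.subtype).FG := fg_map ((hG H hH).1 _) _
    rw [Subgroup.map_subgroupOf_eq_of_le hK] at h1
    refine fg_of_map_inj R.subtype R.subtype_injective ?_
    rwa [Subgroup.map_subgroupOf_eq_of_le hKR]
  · obtain ⟨T, hT⟩ := fg_map hL R.subtype
    obtain ⟨J, hJ, hHJ, hx⟩ := exists_nc_fin hH hK T fun x hx =>
      Subgroup.map_subtype_le L (hT ▸ Subgroup.subset_closure hx)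
    have h1 : L.map R.subtype ≤ nc K J := hT ▸ (Subgroup.closure_le _).2 hx
    have h2 := rel_local hv hf hg p (H.subgroupOf J) (K.subgroupOf J) (hG J hJ) (ht J hHJ hJ)
    have h3 : (K.subgroupOf J).relIndex (H.subgroupOf J) ≠ 0 := by
      rwa [Subgroup.relIndex_subgroupOf hHJ]
    have h4 : K.relIndex (nc K J) ≠ 0 := by
      have h5 := Subgroup.relIndex_ne_zero_trans h3 h2
      rwa [Subgroup.subgroupOf, Subgroup.relIndex_comap] at h5
    rw [Subgroup.subgroupOf, Subgroup.relIndex_comap]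
    exact fun e => h4 (Subgroup.relIndex_eq_zero_of_le_right h1 e)

theorem qfb : SQfb := by
  intro k G Q _ _ _ f H D hf hH h L' hL' hfg T _ _ σ hσ t ht hfix
  obtain ⟨P, hP, hPL⟩ := exists_fg_lift f hf hfg
  have hm : (P ⊔ H).map f = L' := by rw [Subgroup.map_sup, hPL, sup_eq_left.2 hL']
  let φ : (P ⊔ H : Subgroup G) →* L' := (f.comp (P ⊔ H).subtype).codRestrict L' fun x =>
    hm ▸ Subgroup.mem_map_of_mem f x.2
  have hφ : Function.Surjective φ := fun y => by
    obtain ⟨x, hx, e⟩ : (y : Q) ∈ (P ⊔ H).map f := hm ▸ y.2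
    exact ⟨⟨x, hx⟩, Subtype.ext e⟩
  refine h (P ⊔ H) le_sup_right (hP.sup hH) T (σ.comp φ) ⟨hσ.1, fun U hU => hσ.2 U ?_⟩ t ht
    fun e he => hfix (φ e) (Subgroup.mem_map_of_mem f he)
  intro g u hu
  obtain ⟨x, rfl⟩ := hφ g
  exact hU x u hu

end Pool.Agent.MP_6a4325_al.H71
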